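import Pool.Agent.R212.PshDef

/-!
# Bergman functions of planar measures: definitions for MP_58ffb3_an (dimension one)
-/

set_option autoImplicit false

namespace Pool.Agent.N26.BM

open MeasureTheory Metric Set Filter Topology Polynomial ComplexConjugate
open scoped Laplacian ContDiff

/-- The Siciak-Zaharjuta extremal function of `K ⊆ ℂ`: the supremum of `u z` over all `u` in the
Lelong class (subharmonic on `ℂ`, with `u ≤ log⁺|z| + O(1)`) with `u ≤ 0` on `K`. -/
noncomputable def V (K : Set ℂ) : ℂ → EReal :=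
  Pool.Agent.R212.Psh.VK K (fun _ => 0)

/-- `μ` is the equilibrium measure of `K ⊆ ℂ`: the probability measure `dd^c V_K^*`, i.e.
`∫ φ dμ = (1/2π) ∫ V_K^* Δφ` for all test functions `φ`. -/
def IsEquilibriumMeasure (K : Set ℂ) (μ : Measure ℂ) : Prop :=
  IsProbabilityMeasure μ ∧
    ∀ φ : ℂ → ℝ, ContDiff ℝ ∞ φ → HasCompactSupport φ →
      ∫ z, φ z ∂μ =
        (2 * Real.pi)⁻¹ * ∫ z, (Pool.Agent.R212.Psh.reg univ (V K) z).toReal * (Δ φ) z

/-- `e 0, …, e k` is an `L²(ν)`-orthonormal basis of the space of the polynomials of degree at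
most `k` (which has dimension `k + 1`). -/
def IsONB (ν : Measure ℂ) (k : ℕ) (e : Fin (k + 1) → ℂ[X]) : Prop :=
  (∀ i, (e i).natDegree ≤ k) ∧
    ∀ i j, ∫ z, (e i).eval z * conj ((e j).eval z) ∂ν = if i = j then 1 else 0

/-- The Bergman function `B_k = |e_0|² + … + |e_k|²`. -/
noncomputable def bergman {k : ℕ} (e : Fin (k + 1) → ℂ[X]) (z : ℂ) : ℝ :=
  ∑ i, ‖(e i).eval z‖ ^ 2

/-- Property (S): the probability measures `(k+1)⁻¹ B_k ν` converge weak-* to `μ`. -/
def WeakStar (ν μ : Measure ℂ) (e : ∀ k, Fin (k + 1) → ℂ[X]) : Prop :=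
  ∀ f : ℂ → ℝ, Continuous f →
    Tendsto (fun k : ℕ => ((k : ℝ) + 1)⁻¹ * ∫ z, f z * bergman (e k) z ∂ν) atTop
      (𝓝 (∫ z, f z ∂μ))

/-- Property (W): `(2k)⁻¹ log B_k` converges to `V_K` locally uniformly on `ℂ`. -/
def LogAsymptotics (K : Set ℂ) (e : ∀ k, Fin (k + 1) → ℂ[X]) : Prop :=
  TendstoLocallyUniformly (fun (k : ℕ) z => (2 * (k : ℝ))⁻¹ * Real.log (bergman (e k) z))
    (fun z => (V K z).toReal) atTop

end Pool.Agent.N26.BM
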