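import Pool.Agent.N26.BM.Nu

/-! # Lower bounds for the Bergman functions and the main estimate -/

set_option autoImplicit false

namespace Pool.Agent.N26.BM

open MeasureTheory Metric Set Filter Topology Polynomial ComplexConjugate

theorem conj_mul_self_one {z : ℂ} (hz : ‖z‖ = 1) : conj z * z = 1 := by
  rw [mul_comm, Complex.mul_conj, Complex.normSq_eq_norm_sq, hz]
  simp

/-- the test polynomial -/
noncomputable def qq (j M : ℕ) (c : ℕ → ℂ) : ℂ[X] :=
  (1 - X ^ (2 ^ j)) * ∑ a ∈ Finset.range (M + 1), C (c a) * X ^ a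

theorem qq_eval (j M : ℕ) (c : ℕ → ℂ) (x : ℂ) :
    (qq j M c).eval x = (1 - x ^ (2 ^ j)) * ∑ a ∈ Finset.range (M + 1), c a * x ^ a := by
  unfold qq
  simp [eval_finset_sum]

theorem qq_natDegree (j M : ℕ) (c : ℕ → ℂ) : (qq j M c).natDegree ≤ 2 ^ j + M := by
  unfold qq
  refine natDegree_mul_le.trans (add_le_add ?_ ?_)
  · refine (natDegree_sub_le _ _).trans ?_
    simp
  · refine natDegree_sum_le_of_forall_le _ _ fun a ha => ?_
    rw [Finset.mem_range] at ha
    exact (natDegree_C_mul_X_pow_le _ _).trans (by omega)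

theorem qq_norm (j M : ℕ) (hM : M < 2 ^ j) (c : ℕ → ℂ) (hc : ∀ a, ‖c a‖ = 1) :
    ∫ x, ‖(qq j M c).eval x‖ ^ 2 ∂nu = 2 * tl j * (M + 1) := by
  have h1 : form nu (qq j M c) (qq j M c) = 2 * tl j * (M + 1) := by
    unfold form
    have e1 : ∀ x : ℂ, (qq j M c).eval x * conj ((qq j M c).eval x)
        = ∑ a ∈ Finset.range (M + 1), ∑ b ∈ Finset.range (M + 1), (c a * conj (c b)) *
          (x ^ a * conj (x ^ b) * ((1 - x ^ (2 ^ j)) * conj (1 - x ^ (2 ^ j)))) := by
      intro x
      rw [qq_eval, map_mul, map_sum, mul_mul_mul_comm, Finset.sum_mul_sum, Finset.mul_sum]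
      apply Finset.sum_congr rfl
      intro a _
      rw [Finset.mul_sum]
      apply Finset.sum_congr rfl
      intro b _
      rw [map_mul]
      ring
    simp only [e1]
    have hint : ∀ a b : ℕ, Integrable (fun x : ℂ => (c a * conj (c b)) *
          (x ^ a * conj (x ^ b) * ((1 - x ^ (2 ^ j)) * conj (1 - x ^ (2 ^ j))))) nu := by
      intro a b
      apply integrable_of_cont nu_ball
      have := Complex.continuous_conj
      fun_prop
    rw [integral_finset_sum _ (fun a _ => integrable_finset_sum _ fun b _ => hint a b)]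
    have e2 : ∀ a ∈ Finset.range (M + 1), ∫ x, ∑ b ∈ Finset.range (M + 1), (c a * conj (c b)) *
          (x ^ a * conj (x ^ b) * ((1 - x ^ (2 ^ j)) * conj (1 - x ^ (2 ^ j)))) ∂nu
          = 2 * (tl j : ℂ) := by
      intro a ha
      rw [integral_finset_sum _ (fun b _ => hint a b)]
      rw [Finset.sum_eq_single a]
      · rw [integral_const_mul, moments j a a (by have := two_pow_ne j; omega)
          (by have := two_pow_ne j; omega), if_pos rfl, Complex.mul_conj,
          Complex.normSq_eq_norm_sq, hc]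
        simp
      · intro b hb hne
        rw [Finset.mem_range] at ha hb
        rw [integral_const_mul, moments j a b (by omega) (by omega), if_neg (Ne.symm hne), mul_zero]
      · intro h
        exact absurd ha h
    rw [Finset.sum_congr rfl e2]
    simp
    ring
  rw [form_self] at h1
  exact_mod_cast h1

variable {k j : ℕ} {e : Fin (k + 1) → ℂ[X]}

/-- first lower bound -/
theorem bound_T (he : IsONB nu k e) (h1 : 2 ^ j ≤ k) (h2 : k < 2 ^ (j + 1)) {z : ℂ}
    (hz : ‖z‖ = 1) :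
    ((k - 2 ^ j : ℕ) + 1 : ℝ) / (2 * tl j) * ‖1 - z ^ (2 ^ j)‖ ^ 2 ≤ bergman e z := by
  set M : ℕ := k - 2 ^ j with hM
  have hMlt : M < 2 ^ j := by rw [pow_succ] at h2; omega
  have hnorm : ∀ a : ℕ, ‖conj z ^ a‖ = 1 := by
    intro a
    rw [norm_pow, Complex.norm_conj, hz, one_pow]
  have h3 := extremal nu_ball he (p := qq j M (fun a => conj z ^ a))
    ((qq_natDegree _ _ _).trans (by omega)) z
  rw [qq_norm j M hMlt _ hnorm, qq_eval] at h3
  have h4 : ∑ a ∈ Finset.range (M + 1), conj z ^ a * z ^ a = ((M : ℂ) + 1) := by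
    have : ∀ a : ℕ, conj z ^ a * z ^ a = 1 := by
      intro a
      rw [← mul_pow, conj_mul_self_one hz, one_pow]
    simp [this]
  rw [h4, norm_mul] at h3
  have h5 : ‖(M : ℂ) + 1‖ = (M : ℝ) + 1 := by
    rw [← Nat.cast_succ, Complex.norm_natCast]
    push_cast
    ring
  rw [h5] at h3
  have ht := tl_pos j
  have hM0 : (0 : ℝ) < (M : ℝ) + 1 := by positivity
  rw [div_mul_eq_mul_div, div_le_iff₀ (by positivity)]
  have h6 : ((M : ℝ) + 1) * (((M : ℝ) + 1) * ‖1 - z ^ (2 ^ j)‖ ^ 2)
      ≤ ((M : ℝ) + 1) * (bergman e z * (2 * tl j)) := by nlinarith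
  exact le_of_mul_le_mul_left h6 hM0

/-- the Lagrange polynomial of the root of unity `ζ` -/
noncomputable def LL (j : ℕ) (ζ : ℂ) : ℂ[X] :=
  C ((2 ^ j : ℂ)⁻¹) * ∑ a ∈ Finset.range (2 ^ j), C (conj ζ ^ a) * X ^ a

theorem LL_eval (j : ℕ) (ζ x : ℂ) :
    (LL j ζ).eval x = (2 ^ j : ℂ)⁻¹ * ∑ a ∈ Finset.range (2 ^ j), (conj ζ * x) ^ a := by
  unfold LL
  simp [eval_finset_sum, mul_pow]

theorem LL_natDegree (j : ℕ) (ζ : ℂ) : (LL j ζ).natDegree ≤ 2 ^ j := by
  unfold LL
  refine (natDegree_C_mul_le _ _).trans ?_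
  refine natDegree_sum_le_of_forall_le _ _ fun a ha => ?_
  rw [Finset.mem_range] at ha
  exact (natDegree_C_mul_X_pow_le _ _).trans (by omega)

/-- second lower bound, at the roots of unity -/
theorem bound_atom (he : IsONB nu k e) (h1 : 2 ^ j ≤ k) {ζ : ℂ} (hζ : ζ ∈ Sj j) :
    1 - tl j * 2 ^ j / w j ≤ nu.real {ζ} * bergman e ζ := by
  have hζ1 : ζ ^ (2 ^ j) = 1 := mem_Sj.1 hζ
  have hζn : ‖ζ‖ = 1 := by
    have : ‖ζ‖ ^ (2 ^ j) = 1 := by rw [← norm_pow, hζ1, norm_one]
    exact (pow_eq_one_iff_of_nonneg (norm_nonneg _) (two_pow_ne j)).1 this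
  have hne : ((2:ℂ) ^ j) ≠ 0 := pow_ne_zero _ two_ne_zero
  have h3 := extremal nu_ball he (p := LL j ζ) ((LL_natDegree _ _).trans h1) ζ
  have h4 : (LL j ζ).eval ζ = 1 := by
    rw [LL_eval, conj_mul_self_one hζn]
    simp [hne]
  have h5 : ∫ x, ‖(LL j ζ).eval x‖ ^ 2 ∂nu ≤ nu.real {ζ} + tl j := by
    have hle : ∀ᵐ x ∂nu, ‖(LL j ζ).eval x‖ ^ 2 ≤
        ({ζ} : Set ℂ).indicator (fun _ => (1:ℝ)) x + ((Sj j : Set ℂ)ᶜ).indicator (fun _ => (1:ℝ)) x := by
      filter_upwards [ae_norm] with x hx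
      have hb : ‖(LL j ζ).eval x‖ ≤ 1 := by
        rw [LL_eval, norm_mul, norm_inv, norm_pow, Complex.norm_ofNat]
        have : ‖∑ a ∈ Finset.range (2 ^ j), (conj ζ * x) ^ a‖ ≤ 2 ^ j := by
          refine (norm_sum_le _ _).trans ?_
          have : ∀ a : ℕ, ‖(conj ζ * x) ^ a‖ = 1 := by
            intro a
            rw [norm_pow, norm_mul, Complex.norm_conj, hζn, hx, one_mul, one_pow]
          simp [this]
        rw [inv_mul_le_iff₀ (by positivity), mul_one]
        exact this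
      have hb2 : ‖(LL j ζ).eval x‖ ^ 2 ≤ 1 := pow_le_one₀ (norm_nonneg _) hb
      by_cases hxS : x ∈ Sj j
      · have i2 : ((Sj j : Set ℂ)ᶜ).indicator (fun _ => (1:ℝ)) x = 0 :=
          Set.indicator_of_notMem (by simpa using hxS) _
        rw [i2, add_zero]
        by_cases hxz : x = ζ
        · rw [Set.indicator_of_mem (by simpa using hxz)]
          exact hb2
        · have h6 : (LL j ζ).eval x = 0 := by
            rw [LL_eval]
            have h7 := mul_geom_sum (conj ζ * x) (2 ^ j)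
            have h8 : (conj ζ * x) ^ (2 ^ j) = 1 := by
              rw [mul_pow, ← map_pow, hζ1, mem_Sj.1 hxS]
              simp
            rw [h8, sub_self] at h7
            rcases mul_eq_zero.1 h7 with h9 | h9
            · exfalso
              apply hxz
              have h10 : conj ζ * x = 1 := sub_eq_zero.1 h9
              have h11 : ζ * (conj ζ * x) = ζ := by rw [h10, mul_one]
              rw [← mul_assoc, mul_comm ζ, conj_mul_self_one hζn, one_mul] at h11
              exact h11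
            · rw [h9, mul_zero]
          rw [h6]
          have : (0:ℝ) ≤ ({ζ} : Set ℂ).indicator (fun _ => (1:ℝ)) x :=
            Set.indicator_nonneg (fun _ _ => zero_le_one) _
          simpa using this
      · have i2 : ((Sj j : Set ℂ)ᶜ).indicator (fun _ => (1:ℝ)) x = 1 :=
          Set.indicator_of_mem (by simpa using hxS) _
        rw [i2]
        have : (0:ℝ) ≤ ({ζ} : Set ℂ).indicator (fun _ => (1:ℝ)) x :=
            Set.indicator_nonneg (fun _ _ => zero_le_one) _
        linarith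
    have hm1 : MeasurableSet ({ζ} : Set ℂ) := measurableSet_singleton ζ
    have hm2 : MeasurableSet ((Sj j : Set ℂ)ᶜ) := (Finset.measurableSet _).compl
    have hi1 : Integrable (({ζ} : Set ℂ).indicator (fun _ => (1:ℝ))) nu :=
      (integrable_const 1).indicator hm1
    have hi2 : Integrable (((Sj j : Set ℂ)ᶜ).indicator (fun _ => (1:ℝ))) nu :=
      (integrable_const 1).indicator hm2
    calc ∫ x, ‖(LL j ζ).eval x‖ ^ 2 ∂nu ≤
        ∫ x, (({ζ} : Set ℂ).indicator (fun _ => (1:ℝ)) x +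
          ((Sj j : Set ℂ)ᶜ).indicator (fun _ => (1:ℝ)) x) ∂nu :=
          integral_mono_ae (integrable_of_cont nu_ball (((LL j ζ).continuous.norm).pow 2))
            (hi1.add hi2) hle
      _ = nu.real {ζ} + nu.real ((Sj j : Set ℂ)ᶜ) := by
          rw [integral_add hi1 hi2, integral_indicator_const _ hm1, integral_indicator_const _ hm2]
          simp
      _ ≤ nu.real {ζ} + tl j := by
          have := nu_compl_le j
          linarith
  rw [h4, norm_one, one_pow] at h3
  set x := nu.real {ζ} with hx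
  set B := bergman e ζ with hB
  have hB0 : 0 ≤ B := bergman_nonneg ζ
  have ht := tl_pos j
  have hxlow : w j / 2 ^ j ≤ x := atom_ge hζ
  have hw := w_pos j
  have hxpos : 0 < x := lt_of_lt_of_le (by positivity) hxlow
  have h6 : 1 ≤ B * (x + tl j) := h3.trans (mul_le_mul_of_nonneg_left h5 hB0)
  have h7 : 1 / (x + tl j) ≤ B := by
    rw [div_le_iff₀ (by linarith)]
    exact h6
  have h8 : x * (1 / (x + tl j)) ≤ x * B := mul_le_mul_of_nonneg_left h7 hxpos.le
  refine le_trans ?_ h8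
  have h9 : x * (1 / (x + tl j)) = 1 - tl j / (x + tl j) := by
    field_simp
    ring
  rw [h9]
  have h10 : tl j / (x + tl j) ≤ tl j * 2 ^ j / w j := by
    rw [div_le_div_iff₀ (by linarith) hw]
    have h11 : w j ≤ 2 ^ j * (x + tl j) := by
      have : w j ≤ x * 2 ^ j := by
        rw [div_le_iff₀ (by positivity)] at hxlow
        exact hxlow
      have h2j : (0:ℝ) < 2 ^ j := by positivity
      nlinarith [mul_pos h2j ht]
    calc tl j * w j ≤ tl j * (2 ^ j * (x + tl j)) := mul_le_mul_of_nonneg_left h11 ht.le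
      _ = tl j * 2 ^ j * (x + tl j) := by ring
  linarith

/-- growth at `2` -/
theorem bound_two {e : Fin (2 ^ j + 1) → ℂ[X]} (he : IsONB nu (2 ^ j) e) :
    1 / (2 * tl j) ≤ bergman e 2 := by
  have h3 := extremal nu_ball he (p := qq j 0 (fun _ => 1)) ((qq_natDegree _ _ _).trans (by simp)) 2
  rw [qq_norm j 0 (by positivity) _ (by simp), qq_eval] at h3
  simp only [zero_add, Finset.range_one, Finset.sum_singleton, pow_zero, mul_one,
    Nat.cast_zero] at h3
  have h4 : (1:ℝ) ≤ ‖(1:ℂ) - 2 ^ (2 ^ j)‖ := by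
    have h5 := norm_sub_norm_le ((2:ℂ) ^ (2 ^ j)) 1
    rw [norm_sub_rev] at h5
    rw [norm_pow, Complex.norm_ofNat, norm_one] at h5
    have h6 : (2:ℝ) ≤ 2 ^ (2 ^ j) := by
      calc (2:ℝ) = 2 ^ 1 := by norm_num
        _ ≤ 2 ^ (2 ^ j) := pow_le_pow_right₀ (by norm_num) Nat.one_le_two_pow
    linarith
  have ht := tl_pos j
  rw [div_le_iff₀ (by positivity)]
  have h7 : (1:ℝ) ≤ ‖(1:ℂ) - 2 ^ (2 ^ j)‖ ^ 2 := one_le_pow₀ h4
  linarith

end Pool.Agent.N26.BM
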