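import Pool.Agent.N26.BM.Defs

/-! # Orthonormal bases of polynomial spaces: existence and the extremal property -/

set_option autoImplicit false

namespace Pool.Agent.N26.BM

open MeasureTheory Metric Set Filter Topology Polynomial ComplexConjugate

variable {ν : Measure ℂ} [IsFiniteMeasure ν]

theorem integrable_of_cont {E : Type*} [NormedAddCommGroup E] (hν : ν (closedBall 0 1)ᶜ = 0)
    {g : ℂ → E} [MeasurableSpace E] [BorelSpace E] [SecondCountableTopology E]
    (hg : Continuous g) : Integrable g ν := by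
  obtain ⟨C, hC⟩ := (isCompact_closedBall (0:ℂ) 1).exists_bound_of_continuousOn hg.continuousOn
  refine Integrable.of_bound hg.aestronglyMeasurable C ?_
  have h : ∀ᵐ z ∂ν, z ∈ closedBall (0:ℂ) 1 := by
    rw [ae_iff]
    exact hν
  filter_upwards [h] with z hz using hC z hz

theorem cont_mul (p q : ℂ[X]) : Continuous (fun z : ℂ => p.eval z * conj (q.eval z)) :=
  p.continuous.mul (Complex.continuous_conj.comp q.continuous)

theorem normSq_eval (p : ℂ[X]) (z : ℂ) :
    ((‖p.eval z‖ ^ 2 : ℝ) : ℂ) = p.eval z * conj (p.eval z) := by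
  rw [Complex.mul_conj, Complex.normSq_eq_norm_sq]

/-- the sesquilinear form of `ν` -/
noncomputable def form (ν : Measure ℂ) (p q : ℂ[X]) : ℂ := ∫ z, p.eval z * conj (q.eval z) ∂ν

theorem form_self (p : ℂ[X]) : form ν p p = ((∫ z, ‖p.eval z‖ ^ 2 ∂ν : ℝ) : ℂ) := by
  unfold form
  have h : ∀ z, p.eval z * conj (p.eval z) = ((‖p.eval z‖ ^ 2 : ℝ) : ℂ) :=
    fun z => (normSq_eval p z).symm
  simp only [h]
  exact integral_ofReal

theorem form_conj (p q : ℂ[X]) : conj (form ν p q) = form ν q p := by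
  unfold form
  rw [← integral_conj]
  congr 1
  funext z
  simp [mul_comm]

theorem form_add (hν : ν (closedBall 0 1)ᶜ = 0) (p q r : ℂ[X]) :
    form ν (p + q) r = form ν p r + form ν q r := by
  unfold form
  rw [← integral_add (integrable_of_cont hν (cont_mul p r)) (integrable_of_cont hν (cont_mul q r))]
  congr 1
  funext z
  simp [add_mul]

theorem form_smul (c : ℂ) (p r : ℂ[X]) : form ν (c • p) r = c * form ν p r := by
  unfold form
  rw [← integral_const_mul]
  congr 1
  funext z
  simp [mul_assoc]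

/-- the inner product on the polynomials of degree at most `k` given by `ν` -/
noncomputable def core (hν : ν (closedBall 0 1)ᶜ = 0)
    (hpos : ∀ p : ℂ[X], p ≠ 0 → 0 < ∫ z, ‖p.eval z‖ ^ 2 ∂ν) (k : ℕ) :
    InnerProductSpace.Core ℂ (degreeLT ℂ (k + 1)) where
  inner p q := form ν q.1 p.1
  conj_inner_symm p q := form_conj _ _
  re_inner_nonneg p := by
    show 0 ≤ RCLike.re (form ν p.1 p.1)
    rw [form_self]
    simp only [RCLike.re_to_complex, Complex.ofReal_re]
    exact integral_nonneg fun z => by positivity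
  add_left p q r := by
    show form ν r.1 (p.1 + q.1) = form ν r.1 p.1 + form ν r.1 q.1
    rw [← form_conj, form_add hν, map_add, form_conj, form_conj]
  smul_left p q c := by
    show form ν q.1 (c • p.1) = conj c * form ν q.1 p.1
    rw [← form_conj, form_smul, map_mul, form_conj]
  definite p hp := by
    by_contra hne
    have h1 : p.1 ≠ 0 := fun h => hne (Subtype.ext h)
    have h2 := hpos p.1 h1
    have h3 : form ν p.1 p.1 = 0 := hp
    rw [form_self] at h3
    have h4 : ∫ z, ‖p.1.eval z‖ ^ 2 ∂ν = 0 := by exact_mod_cast h3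
    linarith

theorem finrank_degreeLT (k : ℕ) : Module.finrank ℂ (degreeLT ℂ (k + 1)) = k + 1 := by
  rw [LinearEquiv.finrank_eq (degreeLTEquiv ℂ (k + 1))]
  simp

instance finiteDim_degreeLT (k : ℕ) : FiniteDimensional ℂ (degreeLT ℂ (k + 1)) :=
  Module.Finite.equiv (degreeLTEquiv ℂ (k + 1)).symm

theorem natDegree_le_of_mem {k : ℕ} {p : ℂ[X]} (hp : p ∈ degreeLT ℂ (k + 1)) :
    p.natDegree ≤ k := by
  rw [mem_degreeLT] at hp
  rcases eq_or_ne p 0 with rfl | h0
  · simp
  · rw [degree_eq_natDegree h0] at hp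
    have : p.natDegree < k + 1 := by exact_mod_cast hp
    omega

theorem mem_of_natDegree_le {k : ℕ} {p : ℂ[X]} (hp : p.natDegree ≤ k) :
    p ∈ degreeLT ℂ (k + 1) := by
  rw [mem_degreeLT]
  refine lt_of_le_of_lt degree_le_natDegree ?_
  exact_mod_cast Nat.lt_succ_of_le hp

/-- orthonormal bases exist -/
theorem exists_onb (hν : ν (closedBall 0 1)ᶜ = 0)
    (hpos : ∀ p : ℂ[X], p ≠ 0 → 0 < ∫ z, ‖p.eval z‖ ^ 2 ∂ν) (k : ℕ) :
    ∃ e : Fin (k + 1) → ℂ[X], IsONB ν k e := by
  letI c := core hν hpos k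
  letI : NormedAddCommGroup (degreeLT ℂ (k + 1)) := c.toNormedAddCommGroup
  letI : InnerProductSpace ℂ (degreeLT ℂ (k + 1)) := InnerProductSpace.ofCore c.toCore
  let b := (stdOrthonormalBasis ℂ (degreeLT ℂ (k + 1))).reindex
    (finCongr (finrank_degreeLT k))
  refine ⟨fun i => (b i).1, fun i => natDegree_le_of_mem (b i).2, fun i j => ?_⟩
  have h := orthonormal_iff_ite.1 b.orthonormal j i
  have h' : form ν (b i).1 (b j).1 = if j = i then 1 else 0 := h
  unfold form at h'
  rw [h']
  simp only [eq_comm]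

variable {k : ℕ} {e : Fin (k + 1) → ℂ[X]}

theorem form_sum (hν : ν (closedBall 0 1)ᶜ = 0) {ι : Type*} (s : Finset ι) (c : ι → ℂ)
    (f : ι → ℂ[X]) (r : ℂ[X]) :
    form ν (∑ i ∈ s, c i • f i) r = ∑ i ∈ s, c i * form ν (f i) r := by
  classical
  induction s using Finset.induction_on with
  | empty => simp [form]
  | insert a s ha ih => rw [Finset.sum_insert ha, Finset.sum_insert ha, form_add hν, form_smul, ih]

/-- expansion in an orthonormal basis -/
theorem expansion (hν : ν (closedBall 0 1)ᶜ = 0) (he : IsONB ν k e) {p : ℂ[X]}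
    (hp : p.natDegree ≤ k) : ∃ c : Fin (k + 1) → ℂ, p = ∑ i, c i • e i := by
  let e' : Fin (k + 1) → degreeLT ℂ (k + 1) := fun i => ⟨e i, mem_of_natDegree_le (he.1 i)⟩
  have hli : LinearIndependent ℂ e' := by
    rw [Fintype.linearIndependent_iff]
    intro g hg l
    have h1 : ∑ i, g i • e i = 0 := by
      have := congrArg (Submodule.subtype _) hg
      simpa [e'] using this
    have h2 := form_sum hν Finset.univ g e (e l)
    rw [h1] at h2
    have h3 : form ν 0 (e l) = 0 := by simp [form]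
    rw [h3] at h2
    have h4 : ∀ i, form ν (e i) (e l) = if i = l then 1 else 0 := fun i => he.2 i l
    simp only [h4] at h2
    simpa using h2.symm
  have hspan := hli.span_eq_top_of_card_eq_finrank' (by rw [finrank_degreeLT]; simp)
  have hmem : (⟨p, mem_of_natDegree_le hp⟩ : degreeLT ℂ (k + 1)) ∈ Submodule.span ℂ (range e') := by
    rw [hspan]
    trivial
  obtain ⟨c, hc⟩ := (Submodule.mem_span_range_iff_exists_fun ℂ).1 hmem
  refine ⟨c, ?_⟩
  have := congrArg (Submodule.subtype _) hc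
  simpa [e'] using this.symm

/-- the extremal property of the Bergman function -/
theorem extremal (hν : ν (closedBall 0 1)ᶜ = 0) (he : IsONB ν k e) {p : ℂ[X]}
    (hp : p.natDegree ≤ k) (z : ℂ) :
    ‖p.eval z‖ ^ 2 ≤ bergman e z * ∫ x, ‖p.eval x‖ ^ 2 ∂ν := by
  obtain ⟨c, hc⟩ := expansion hν he hp
  have h1 : ∀ l, form ν p (e l) = c l := by
    intro l
    rw [hc, form_sum hν]
    have h4 : ∀ i, form ν (e i) (e l) = if i = l then 1 else 0 := fun i => he.2 i l
    simp only [h4]
    simp
  have h2 : form ν p p = ∑ i, ((‖c i‖ ^ 2 : ℝ) : ℂ) := by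
    have : form ν p p = form ν (∑ i, c i • e i) p := by rw [← hc]
    rw [this, form_sum hν]
    apply Finset.sum_congr rfl
    intro i _
    rw [← form_conj, h1, Complex.mul_conj, Complex.normSq_eq_norm_sq]
  rw [form_self] at h2
  have h3 : ∫ x, ‖p.eval x‖ ^ 2 ∂ν = ∑ i, ‖c i‖ ^ 2 := by exact_mod_cast h2
  rw [h3]
  have h5 : p.eval z = ∑ i, c i * (e i).eval z := by
    conv_lhs => rw [hc]
    simp [eval_finset_sum]
  have h6 : ‖p.eval z‖ ≤ ∑ i, ‖c i‖ * ‖(e i).eval z‖ := by
    rw [h5]
    refine (norm_sum_le _ _).trans (le_of_eq ?_)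
    simp
  calc ‖p.eval z‖ ^ 2 ≤ (∑ i, ‖c i‖ * ‖(e i).eval z‖) ^ 2 := by gcongr
    _ ≤ (∑ i, ‖c i‖ ^ 2) * ∑ i, ‖(e i).eval z‖ ^ 2 := Finset.sum_mul_sq_le_sq_mul_sq _ _ _
    _ = bergman e z * ∑ i, ‖c i‖ ^ 2 := by unfold bergman; ring

theorem bergman_nonneg (z : ℂ) : 0 ≤ bergman e z :=
  Finset.sum_nonneg fun i _ => by positivity

theorem continuous_bergman : Continuous (bergman e) := by
  unfold bergman
  exact continuous_finsetSum _ fun i _ => ((e i).continuous.norm).pow 2

/-- total mass -/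
theorem integral_bergman (hν : ν (closedBall 0 1)ᶜ = 0) (he : IsONB ν k e) :
    ∫ z, bergman e z ∂ν = k + 1 := by
  unfold bergman
  rw [integral_finset_sum]
  · have : ∀ i, ∫ z, ‖(e i).eval z‖ ^ 2 ∂ν = 1 := by
      intro i
      have h1 := he.2 i i
      rw [if_pos rfl] at h1
      have h2 := form_self (ν := ν) (e i)
      unfold form at h2
      rw [h1] at h2
      exact_mod_cast h2.symm
    simp [this]
  · intro i _
    exact integrable_of_cont hν (((e i).continuous.norm).pow 2)

end Pool.Agent.N26.BM
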