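import Pool.Agent.R212.Psh6
import Pool.Agent.N26.BM.Defs

/-! # The extremal function and the equilibrium measure of the closed unit disc -/

set_option autoImplicit false

namespace Pool.Agent.N26.BM

open MeasureTheory Metric Set Filter Topology Real
open scoped Laplacian ContDiff ENNReal
open Pool.Agent.R212.Psh (Subharmonic Lelong VK reg W ee annulus_max le_circleAverage_of_support
  subharmonic_of_continuous continuous_W integral_W_mul_laplacian continuous_ee measurable_ee)

theorem posLog_eq_W (z : ℂ) : Real.posLog ‖z‖ = W 2 z - W 1 z := by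
  unfold W
  rw [Real.posLog_eq_log_max_one (norm_nonneg z), max_comm]
  ring

theorem continuous_posLog_norm : Continuous (fun z : ℂ => Real.posLog ‖z‖) := by
  have : (fun z : ℂ => Real.posLog ‖z‖) = fun z => W 2 z - W 1 z := by
    funext z; exact posLog_eq_W z
  rw [this]
  exact (continuous_W 2).sub (continuous_W 1)

theorem posLog_sub_mean (c : ℂ) (r : ℝ) (hr : 0 < r) :
    Real.posLog ‖c‖ ≤ Real.circleAverage (fun z : ℂ => Real.posLog ‖z‖) c r := by
  rcases le_total ‖c‖ 1 with h | h
  · have h0 : Real.posLog ‖c‖ = 0 := by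
      rw [Real.posLog_eq_zero_iff, abs_of_nonneg (norm_nonneg c)]
      exact h
    rw [h0]
    have h1 := circleAverage_const (0:ℝ) c r
    rw [← h1]
    apply circleAverage_mono
    · exact circleIntegrable_const _ _ _
    · exact continuous_posLog_norm.continuousOn.circleIntegrable'
    · intro x _
      exact Real.posLog_nonneg
  · have hc : c ≠ 0 := by
      rintro rfl
      simp at h
      linarith
    refine le_circleAverage_of_support (fun z : ℂ => Real.posLog ‖z‖) continuous_posLog_norm c hc
      1 0 zero_le_one ?_ ?_ r hr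
    · intro z _
      rw [one_mul, add_zero]
      exact le_max_right _ _
    · rw [one_mul, add_zero]
      exact Real.posLog_eq_log (by rw [abs_of_nonneg (norm_nonneg c)]; exact h)

theorem lelong_posLog : Lelong (fun z => ((Real.posLog ‖z‖ : ℝ) : EReal)) := by
  refine ⟨subharmonic_of_continuous univ _ continuous_posLog_norm posLog_sub_mean, 0, ?_⟩
  intro z
  rw [add_zero]

theorem posLog_bound {u : ℂ → EReal} (hu : Lelong u)
    (hK : ∀ w ∈ closedBall (0:ℂ) 1, u w ≤ 0) (z : ℂ) :
    u z ≤ ((Real.posLog ‖z‖ : ℝ) : EReal) := by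
  rcases le_total ‖z‖ 1 with h | h
  · refine (hK z (by simpa using h)).trans ?_
    have : (0:ℝ) ≤ Real.posLog ‖z‖ := Real.posLog_nonneg
    exact_mod_cast this
  · rw [Real.posLog_eq_log (by rw [abs_of_nonneg (norm_nonneg z)]; exact h)]
    obtain ⟨hs, C, hC⟩ := hu
    have key : ∀ ε : ℝ, 0 < ε → u z ≤ (((1 + ε) * Real.log ‖z‖ + 0 : ℝ) : EReal) := by
      intro ε hε
      set R : ℝ := max (Real.exp ((|C| + 1) / ε)) (‖z‖) with hR
      have hexp : Real.exp ((|C| + 1) / ε) ≤ R := le_max_left _ _
      have hRz : ‖z‖ ≤ R := le_max_right _ _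
      have h1R : 1 < R := by
        refine lt_of_lt_of_le ?_ hexp
        rw [Real.one_lt_exp_iff]
        positivity
      have hlogR : (|C| + 1) / ε ≤ Real.log R := by
        rw [Real.le_log_iff_exp_le (by linarith)]
        exact hexp
      have hlogR' : |C| + 1 ≤ ε * Real.log R := by
        rw [div_le_iff₀ hε] at hlogR
        linarith
      refine annulus_max hs h1R (subset_univ _) (1 + ε) 0 ?_ ?_ z h hRz
      · intro x hx
        refine (hK x (by simp [hx])).trans ?_
        simp
      · intro x hx
        refine (hC x).trans ?_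
        rw [EReal.coe_le_coe_iff, Real.posLog_eq_log (by rw [hx, abs_of_pos (by linarith)]; exact h1R.le), hx]
        have := le_abs_self C
        linarith
    rcases eq_or_ne (u z) ⊥ with hb | hb
    · rw [hb]
      exact bot_le
    · have htop' := (hs.2.1 z (mem_univ z)).ne
      lift u z to ℝ using ⟨htop', hb⟩ with s
      rw [EReal.coe_le_coe_iff]
      apply le_of_forall_pos_le_add
      intro δ hδ
      have hl := Real.log_nonneg h
      have := key (δ / (Real.log ‖z‖ + 1)) (by positivity)
      rw [EReal.coe_le_coe_iff] at this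
      have h3 : δ / (Real.log ‖z‖ + 1) * Real.log ‖z‖ ≤ δ := by
        rw [div_mul_eq_mul_div, div_le_iff₀ (by linarith)]
        nlinarith
      linarith

theorem V_disc : V (closedBall 0 1) = fun z => ((Real.posLog ‖z‖ : ℝ) : EReal) := by
  funext z
  apply le_antisymm
  · apply sSup_le
    rintro t ⟨u, hu, hK, rfl⟩
    exact posLog_bound hu (fun w hw => by simpa using hK w hw) z
  · apply le_sSup
    refine ⟨_, lelong_posLog, fun w hw => ?_, rfl⟩
    have : Real.posLog ‖w‖ = 0 := by
      rw [Real.posLog_eq_zero_iff, abs_of_nonneg (norm_nonneg w)]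
      simpa using hw
    rw [this]

theorem reg_V (z : ℂ) : reg univ (V (closedBall 0 1)) z = ((Real.posLog ‖z‖ : ℝ) : EReal) := by
  unfold reg
  rw [V_disc, nhdsWithin_univ]
  apply Tendsto.limsup_eq
  exact (continuous_coe_real_ereal.comp continuous_posLog_norm).tendsto z

/-- normalised arc length on the unit circle -/
noncomputable def arc : Measure ℂ :=
  ENNReal.ofReal (2 * π)⁻¹ • Measure.map ee (volume.restrict (Ioc (-π) π))

theorem integral_arc {E : Type*} [NormedAddCommGroup E] [NormedSpace ℝ E] {φ : ℂ → E}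
    (hφ : Continuous φ) :
    ∫ z, φ z ∂arc = (2 * π)⁻¹ • ∫ θ in Ioc (-π) π, φ (ee θ) := by
  unfold arc
  rw [integral_smul_measure, integral_map measurable_ee.aemeasurable
    hφ.aestronglyMeasurable, ENNReal.toReal_ofReal (by positivity)]

instance : IsProbabilityMeasure arc := by
  constructor
  unfold arc
  rw [Measure.smul_apply, Measure.map_apply measurable_ee MeasurableSet.univ, preimage_univ,
    Measure.restrict_apply MeasurableSet.univ, univ_inter, Real.volume_Ioc, smul_eq_mul,
    ← ENNReal.ofReal_mul (by positivity)]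
  have : (2 * π)⁻¹ * (π - -π) = 1 := by
    field_simp
    ring
  rw [this, ENNReal.ofReal_one]

theorem isEquilibriumMeasure_arc : IsEquilibriumMeasure (closedBall 0 1) arc := by
  refine ⟨inferInstance, fun φ hφ hs => ?_⟩
  rw [integral_arc hφ.continuous, smul_eq_mul]
  congr 1
  have h1 := integral_W_mul_laplacian hφ 1 hs
  have h2 := integral_W_mul_laplacian hφ 2 hs
  have h3 : ∀ z, (reg univ (V (closedBall 0 1)) z).toReal * (Δ φ) z
      = W 2 z * (Δ φ) z - W 1 z * (Δ φ) z := by
    intro z
    rw [reg_V, EReal.toReal_coe, posLog_eq_W]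
    ring
  simp only [h3]
  have hlap : ∀ z, (Δ φ) z = fderiv ℝ (fderiv ℝ φ) z 1 1
      + fderiv ℝ (fderiv ℝ φ) z Complex.I Complex.I := by
    intro z
    rw [InnerProductSpace.laplacian_eq_iteratedFDeriv_complexPlane]
    simp [iteratedFDeriv_two_apply]
  have hφ1 : ContDiff ℝ ∞ (fderiv ℝ φ) := hφ.fderiv_right (by simp)
  have hφ2 : Continuous (fderiv ℝ (fderiv ℝ φ)) := hφ1.continuous_fderiv (by simp)
  have hΔ : Continuous (Δ φ) := by
    have : (Δ φ) = fun z => fderiv ℝ (fderiv ℝ φ) z 1 1
        + fderiv ℝ (fderiv ℝ φ) z Complex.I Complex.I := funext hlap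
    rw [this]
    exact ((hφ2.clm_apply continuous_const).clm_apply continuous_const).add
      ((hφ2.clm_apply continuous_const).clm_apply continuous_const)
  have hΔs : HasCompactSupport (Δ φ) := by
    refine HasCompactSupport.intro (K := tsupport φ) hs fun z hz => ?_
    have h0 : fderiv ℝ (fderiv ℝ φ) z = 0 := by
      apply fderiv_of_notMem_tsupport
      intro hmem
      exact hz (tsupport_fderiv_subset ℝ hmem)
    rw [hlap, h0]
    simp
  rw [integral_sub, h1, h2]
  · ring
  · exact ((continuous_W 2).mul hΔ).integrable_of_hasCompactSupport hΔs.mul_left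
  · exact ((continuous_W 1).mul hΔ).integrable_of_hasCompactSupport hΔs.mul_left

end Pool.Agent.N26.BM
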