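import Pool.Agent.N26.BM.Mom
import Pool.Agent.N26.BM.Pot

/-! # Weak-* convergence holds, log-asymptotics fail -/

set_option autoImplicit false

namespace Pool.Agent.N26.BM

open MeasureTheory Metric Set Filter Topology Polynomial ComplexConjugate
open Pool.Agent.R212.Psh (ee ee_norm)

variable (e : ∀ k, Fin (k + 1) → ℂ[X])

/-- the functional `g ↦ (k+1)⁻¹ ∫ g B_k dν` -/
noncomputable def Lam (k : ℕ) (g : ℂ → ℂ) : ℂ :=
  ((k : ℂ) + 1)⁻¹ * ∫ z, g z * ((bergman (e k) z : ℝ) : ℂ) ∂nu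

variable {e}

theorem cont_gB {g : ℂ → ℂ} (hg : Continuous g) (k : ℕ) :
    Integrable (fun z => g z * ((bergman (e k) z : ℝ) : ℂ)) nu :=
  integrable_of_cont nu_ball (hg.mul (Complex.continuous_ofReal.comp continuous_bergman))

theorem Lam_add {g h : ℂ → ℂ} (hg : Continuous g) (hh : Continuous h) (k : ℕ) :
    Lam e k (fun z => g z + h z) = Lam e k g + Lam e k h := by
  unfold Lam
  rw [← mul_add, ← integral_add (cont_gB hg k) (cont_gB hh k)]
  congr 2
  funext z
  ring

theorem Lam_smul (c : ℂ) (g : ℂ → ℂ) (k : ℕ) :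
    Lam e k (fun z => c * g z) = c * Lam e k g := by
  unfold Lam
  have h : ∀ z, c * g z * ((bergman (e k) z : ℝ) : ℂ) = c * (g z * ((bergman (e k) z : ℝ) : ℂ)) :=
    fun z => by ring
  simp only [h]
  rw [integral_const_mul]
  ring

theorem norm_k (k : ℕ) : ‖((k : ℂ) + 1)⁻¹‖ = ((k : ℝ) + 1)⁻¹ := by
  rw [norm_inv, ← Nat.cast_succ, Complex.norm_natCast]
  push_cast
  rfl

theorem norm_Lam_le (he : ∀ k, IsONB nu k (e k)) {g : ℂ → ℂ} {δ : ℝ}
    (h : ∀ z : ℂ, ‖z‖ = 1 → ‖g z‖ ≤ δ) (k : ℕ) : ‖Lam e k g‖ ≤ δ := by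
  unfold Lam
  rw [norm_mul, norm_k]
  have hk : (0 : ℝ) < (k : ℝ) + 1 := by positivity
  rw [inv_mul_le_iff₀ hk]
  refine (norm_integral_le_integral_norm _).trans ?_
  have hBi : Integrable (bergman (e k)) nu := integrable_of_cont nu_ball continuous_bergman
  calc ∫ z, ‖g z * ((bergman (e k) z : ℝ) : ℂ)‖ ∂nu ≤ ∫ z, δ * bergman (e k) z ∂nu := by
        refine integral_mono_of_nonneg (Eventually.of_forall fun z => norm_nonneg _)
          (hBi.const_mul δ) ?_
        filter_upwards [ae_norm] with z hz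
        rw [norm_mul, Complex.norm_real, Real.norm_eq_abs, abs_of_nonneg (bergman_nonneg z)]
        exact mul_le_mul_of_nonneg_right (h z hz) (bergman_nonneg z)
    _ = ((k : ℝ) + 1) * δ := by
        rw [integral_const_mul, integral_bergman nu_ball (he k)]
        ring

theorem arc_ae : ∀ᵐ z ∂arc, ‖z‖ = 1 := by
  unfold arc
  refine Measure.ae_smul_measure ?_ _
  rw [ae_map_iff Pool.Agent.R212.Psh.measurable_ee.aemeasurable]
  · exact Eventually.of_forall fun θ => ee_norm θ
  · exact measurableSet_eq_fun measurable_norm measurable_const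

theorem norm_arc_le {g : ℂ → ℂ} {δ : ℝ} (h : ∀ z : ℂ, ‖z‖ = 1 → ‖g z‖ ≤ δ) :
    ‖∫ z, g z ∂arc‖ ≤ δ := by
  have := norm_integral_le_of_norm_le_const (μ := arc) (f := g) (C := δ) (by
    filter_upwards [arc_ae] with z hz using h z hz)
  simpa using this

theorem arc_cont {g : ℂ → ℂ} (hg : Continuous g) : Integrable g arc := by
  apply integrable_of_cont _ hg
  have := ae_iff.1 arc_ae
  refine measure_mono_null ?_ this
  intro z hz h
  apply hz
  simp [h]

theorem arc_pow {m : ℕ} (hm : 0 < m) : ∫ z, z ^ m ∂arc = 0 := by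
  rw [integral_arc (by fun_prop)]
  have h1 : ∀ θ : ℝ, ee θ ^ m = Complex.exp ((m * Complex.I) * θ) := by
    intro θ
    unfold ee
    rw [← Complex.exp_nat_mul]
    congr 1
    ring
  simp only [h1]
  rw [← intervalIntegral.integral_of_le (by linarith [Real.pi_pos]),
    integral_exp_mul_complex (by simp [hm.ne'])]
  have h2 : Complex.exp (m * Complex.I * (Real.pi : ℝ))
      = Complex.exp (m * Complex.I * ((-Real.pi : ℝ) : ℂ)) := by
    have : (m * Complex.I * (Real.pi : ℝ) : ℂ)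
        = m * Complex.I * ((-Real.pi : ℝ) : ℂ) + m * (2 * Real.pi * Complex.I) := by
      push_cast
      ring
    rw [this]
    exact Complex.exp_periodic.nat_mul m _
  rw [h2, sub_self, zero_div, smul_zero]

/-- convergence for the powers -/
theorem tendsto_pow (he : ∀ k, IsONB nu k (e k)) (m : ℕ) :
    Tendsto (fun k => Lam e k (fun z => z ^ m)) atTop (𝓝 (∫ z, z ^ m ∂arc)) := by
  rcases Nat.eq_zero_or_pos m with rfl | hm
  · have h1 : ∀ k, Lam e k (fun z => z ^ 0) = 1 := by
      intro k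
      unfold Lam
      simp only [pow_zero, one_mul]
      have h2 : ∫ z, ((bergman (e k) z : ℝ) : ℂ) ∂nu
        = ((∫ z, bergman (e k) z ∂nu : ℝ) : ℂ) := integral_ofReal
      rw [h2, integral_bergman nu_ball (he k)]
      have : ((k : ℂ) + 1) ≠ 0 := by exact_mod_cast Nat.succ_ne_zero k
      push_cast
      exact inv_mul_cancel₀ this
    have h1' : (fun k => Lam e k (fun z => z ^ 0)) = fun _ => 1 := funext h1
    rw [h1']
    simp
  · rw [arc_pow hm]
    apply squeeze_zero_norm' (a := fun k : ℕ => ((k : ℝ) + 1)⁻¹)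
    · filter_upwards [eventually_ge_atTop (2 * m)] with k hk
      have hk0 : k ≠ 0 := by omega
      have h1 : 2 ^ (Nat.log 2 k) ≤ k := Nat.pow_log_le_self 2 hk0
      have h2 : k < 2 ^ (Nat.log 2 k + 1) := Nat.lt_pow_succ_log_self (by norm_num) k
      have h3 : m < 2 ^ (Nat.log 2 k) := by
        rw [pow_succ] at h2
        omega
      unfold Lam
      rw [norm_mul, norm_k]
      have h4 := moment_small (he k) h1 h2 hm h3
      have hk : (0 : ℝ) < ((k : ℝ) + 1)⁻¹ := by positivity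
      calc ((k : ℝ) + 1)⁻¹ * ‖∫ z, z ^ m * ((bergman (e k) z : ℝ) : ℂ) ∂nu‖
          ≤ ((k : ℝ) + 1)⁻¹ * 1 := mul_le_mul_of_nonneg_left h4 hk.le
        _ = ((k : ℝ) + 1)⁻¹ := mul_one _
    · exact tendsto_inv_atTop_zero.comp
        (tendsto_atTop_add_const_right _ _ tendsto_natCast_atTop_atTop)

theorem tendsto_conj_pow (he : ∀ k, IsONB nu k (e k)) (m : ℕ) :
    Tendsto (fun k => Lam e k (fun z => conj z ^ m)) atTop (𝓝 (∫ z, conj z ^ m ∂arc)) := by
  have h1 : ∀ k, Lam e k (fun z => conj z ^ m) = conj (Lam e k (fun z => z ^ m)) := by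
    intro k
    unfold Lam
    rw [map_mul, ← integral_conj, map_inv₀, map_add, map_one, Complex.conj_natCast]
    congr 2
    funext z
    simp
  have h2 : ∫ z, conj z ^ m ∂arc = conj (∫ z, z ^ m ∂arc) := by
    rw [← integral_conj]
    congr 1
    funext z
    simp
  simp only [h1]
  rw [h2]
  exact (Complex.continuous_conj.tendsto _).comp (tendsto_pow he m)

instance : Fact (0 < 2 * Real.pi) := ⟨Real.two_pi_pos⟩

/-- convergence for the trigonometric polynomials -/
theorem tendsto_trig (he : ∀ k, IsONB nu k (e k)) (P : C(AddCircle (2 * Real.pi), ℂ))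
    (hP : P ∈ Submodule.span ℂ (range (@fourier (2 * Real.pi)))) :
    ∃ g : ℂ → ℂ, Continuous g ∧ (∀ θ : AddCircle (2 * Real.pi), g (AddCircle.toCircle θ) = P θ) ∧
      Tendsto (fun k => Lam e k g) atTop (𝓝 (∫ z, g z ∂arc)) := by
  induction hP using Submodule.span_induction with
  | mem x hx =>
    obtain ⟨n, rfl⟩ := hx
    rcases n with m | m
    · refine ⟨fun z => z ^ m, by fun_prop, fun θ => ?_, tendsto_pow he m⟩
      rw [fourier_apply, AddCircle.toCircle_zsmul]
      simp
    · refine ⟨fun z => conj z ^ (m + 1), ?_, fun θ => ?_, tendsto_conj_pow he (m + 1)⟩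
      · exact Complex.continuous_conj.pow _
      · rw [fourier_apply, AddCircle.toCircle_zsmul, zpow_negSucc]
        rw [Circle.coe_inv, Circle.coe_pow]
        simp only
        rw [← inv_pow, ← Circle.coe_inv, Circle.coe_inv_eq_conj]
  | zero =>
    refine ⟨fun _ => 0, continuous_const, fun θ => rfl, ?_⟩
    simp [Lam]
  | add x y _ _ hx hy =>
    obtain ⟨g, hg, hgx, hgt⟩ := hx
    obtain ⟨h, hh, hhy, hht⟩ := hy
    refine ⟨fun z => g z + h z, hg.add hh, fun θ => by simp [hgx, hhy], ?_⟩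
    rw [integral_add (arc_cont hg) (arc_cont hh)]
    simp only [Lam_add hg hh]
    exact hgt.add hht
  | smul c x _ hx =>
    obtain ⟨g, hg, hgx, hgt⟩ := hx
    refine ⟨fun z => c * g z, continuous_const.mul hg, fun θ => by simp [hgx], ?_⟩
    rw [integral_const_mul]
    simp only [Lam_smul]
    exact hgt.const_mul c

/-- convergence for all continuous functions -/
theorem tendsto_cont (he : ∀ k, IsONB nu k (e k)) (f : ℂ → ℂ) (hf : Continuous f) :
    Tendsto (fun k => Lam e k f) atTop (𝓝 (∫ z, f z ∂arc)) := by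
  let F : C(AddCircle (2 * Real.pi), ℂ) :=
    ⟨fun θ => f (AddCircle.toCircle θ), by
      exact hf.comp (continuous_subtype_val.comp AddCircle.continuous_toCircle)⟩
  rw [Metric.tendsto_atTop]
  intro ε hε
  have hF : F ∈ (Submodule.span ℂ (range (@fourier (2 * Real.pi)))).topologicalClosure := by
    rw [span_fourier_closure_eq_top]
    trivial
  rw [← SetLike.mem_coe, Submodule.topologicalClosure_coe, Metric.mem_closure_iff] at hF
  obtain ⟨P, hP, hd⟩ := hF (ε / 3) (by positivity)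
  obtain ⟨g, hg, hgP, hgt⟩ := tendsto_trig he P hP
  have hfg : ∀ z : ℂ, ‖z‖ = 1 → ‖f z + (-1) * g z‖ ≤ ε / 3 := by
    intro z hz
    obtain ⟨θ, hθ⟩ : ∃ θ : AddCircle (2 * Real.pi), ((AddCircle.toCircle θ : Circle) : ℂ) = z := by
      refine ⟨((Complex.arg z : ℝ) : AddCircle (2 * Real.pi)), ?_⟩
      rw [AddCircle.toCircle_apply_mk, Circle.coe_exp]
      have : 2 * Real.pi / (2 * Real.pi) * z.arg = z.arg := by
        have := Real.pi_pos.ne'
        field_simp
      rw [this]
      have := Complex.norm_mul_exp_arg_mul_I z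
      rw [hz] at this
      simpa using this
    rw [← hθ, hgP θ]
    have h1 : ‖(F - P) θ‖ ≤ ‖F - P‖ := ContinuousMap.norm_coe_le_norm _ _
    rw [← dist_eq_norm F P] at h1
    have h2 : f (AddCircle.toCircle θ) + -1 * P θ = (F - P) θ := by
      simp [F, sub_eq_add_neg]
    rw [h2]
    exact h1.trans hd.le
  obtain ⟨K, hK⟩ := (Metric.tendsto_atTop.1 hgt) (ε / 3) (by positivity)
  refine ⟨K, fun k hk => ?_⟩
  have h3 := hK k hk
  have hneg : Continuous (fun z => (-1 : ℂ) * g z) := continuous_const.mul hg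
  have h4 : ‖Lam e k f - Lam e k g‖ ≤ ε / 3 := by
    have : Lam e k f - Lam e k g = Lam e k (fun z => f z + (-1) * g z) := by
      rw [Lam_add hf hneg, Lam_smul]
      ring
    rw [this]
    exact norm_Lam_le he hfg k
  have h5 : ‖∫ z, f z ∂arc - ∫ z, g z ∂arc‖ ≤ ε / 3 := by
    have : ∫ z, f z ∂arc - ∫ z, g z ∂arc = ∫ z, (f z + (-1) * g z) ∂arc := by
      rw [integral_add (arc_cont hf) (arc_cont hneg), integral_const_mul]
      ring
    rw [this]
    exact norm_arc_le hfg
  rw [dist_eq_norm] at h3 ⊢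
  have h6 : Lam e k f - ∫ z, f z ∂arc = (Lam e k f - Lam e k g) + (Lam e k g - ∫ z, g z ∂arc)
      - (∫ z, f z ∂arc - ∫ z, g z ∂arc) := by ring
  rw [h6]
  calc _ ≤ ‖(Lam e k f - Lam e k g) + (Lam e k g - ∫ z, g z ∂arc)‖
        + ‖∫ z, f z ∂arc - ∫ z, g z ∂arc‖ := norm_sub_le _ _
    _ ≤ (‖Lam e k f - Lam e k g‖ + ‖Lam e k g - ∫ z, g z ∂arc‖)
        + ‖∫ z, f z ∂arc - ∫ z, g z ∂arc‖ := by gcongr; exact norm_add_le _ _
    _ < ε := by linarith

theorem weakStar (he : ∀ k, IsONB nu k (e k)) : WeakStar nu arc e := by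
  intro f hf
  have h1 := tendsto_cont he (fun z => ((f z : ℝ) : ℂ)) (Complex.continuous_ofReal.comp hf)
  have h2 : ∫ z, ((f z : ℝ) : ℂ) ∂arc = ((∫ z, f z ∂arc : ℝ) : ℂ) := integral_ofReal
  rw [h2] at h1
  have h3 : ∀ k, Lam e k (fun z => ((f z : ℝ) : ℂ))
      = ((((k : ℝ) + 1)⁻¹ * ∫ z, f z * bergman (e k) z ∂nu : ℝ) : ℂ) := by
    intro k
    unfold Lam
    have h4 : ∫ z, ((f z : ℝ) : ℂ) * ((bergman (e k) z : ℝ) : ℂ) ∂nu
        = ((∫ z, f z * bergman (e k) z ∂nu : ℝ) : ℂ) := by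
      rw [← Complex.ofRealCLM_apply, ← Complex.ofRealCLM.integral_comp_comm]
      · simp
      · exact integrable_of_cont nu_ball (hf.mul continuous_bergman)
    rw [h4]
    push_cast
    ring
  simp only [h3] at h1
  have h5 := (Complex.continuous_re.tendsto _).comp h1
  simp only [Function.comp_def, Complex.ofReal_re] at h5
  exact h5

theorem not_log (he : ∀ k, IsONB nu k (e k)) : ¬ LogAsymptotics (closedBall 0 1) e := by
  intro h
  unfold LogAsymptotics at h
  have h1 := (tendstoLocallyUniformlyOn_univ.2 h).tendsto_at (mem_univ (2:ℂ))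
  simp only [V_disc] at h1
  rw [EReal.toReal_coe] at h1
  have h2 : Real.posLog ‖(2:ℂ)‖ = Real.log 2 := by
    rw [Complex.norm_ofNat, Real.posLog_eq_log (by norm_num)]
  rw [h2] at h1
  have h3 : Tendsto (fun j : ℕ => 2 ^ j) atTop atTop := tendsto_pow_atTop_atTop_of_one_lt (by norm_num)
  have h4 := h1.comp h3
  have hl2 : 0 < Real.log 2 := Real.log_pos (by norm_num)
  have h5 : 2 * Real.log 2 ≤ Real.log 2 := by
    refine ge_of_tendsto h4 ?_
    filter_upwards [eventually_ge_atTop 1] with j hj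
    have hB := bound_two (he (2 ^ j))
    have ht := tl_pos j
    have htl := tl_le j
    have hpos : (0:ℝ) < 1 / (2 * tl j) := by positivity
    have hlog : Real.log (1 / (2 * tl j)) ≤ Real.log (bergman (e (2 ^ j)) 2) :=
      Real.log_le_log hpos hB
    have h6 : ((4:ℝ) ^ (j + 1) - 2) * Real.log 2 ≤ Real.log (1 / (2 * tl j)) := by
      have h7 : (2:ℝ) * tl j ≤ 4 * (1 / 2) ^ (4 ^ (j + 1)) := by
        have : w (j + 1) = (1 / 2 : ℝ) ^ (4 ^ (j + 1)) := rfl
        rw [← this]
        linarith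
      have h8 : Real.log (2 * tl j) ≤ Real.log (4 * (1 / 2 : ℝ) ^ (4 ^ (j + 1))) :=
        Real.log_le_log (by positivity) h7
      have h9 : Real.log 4 = 2 * Real.log 2 := by
        have : (4:ℝ) = 2 ^ 2 := by norm_num
        rw [this, Real.log_pow]
        norm_num
      have h8' : Real.log (4 * (1 / 2 : ℝ) ^ (4 ^ (j + 1)))
          = 2 * Real.log 2 - 4 ^ (j + 1) * Real.log 2 := by
        rw [Real.log_mul (by norm_num) (by positivity), Real.log_pow, one_div (2:ℝ),
          Real.log_inv, h9]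
        push_cast
        ring
      rw [h8'] at h8
      rw [one_div, Real.log_inv]
      linarith
    have h10 : (2:ℝ) ≤ 2 ^ j := by
      calc (2:ℝ) = 2 ^ 1 := by norm_num
        _ ≤ 2 ^ j := pow_le_pow_right₀ (by norm_num) hj
    have h11 : (4:ℝ) ^ (j + 1) = 4 * (2 ^ j) ^ 2 := by
      have : (4:ℝ) = 2 ^ 2 := by norm_num
      rw [pow_succ, this, ← pow_mul, ← pow_mul]
      ring
    simp only [Function.comp_apply]
    push_cast
    rw [inv_mul_eq_div, le_div_iff₀ (by positivity)]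
    refine le_trans ?_ (h6.trans hlog)
    rw [h11]
    set x : ℝ := 2 ^ j with hx
    have h12 : 2 * (2 * x) ≤ 4 * x ^ 2 - 2 := by nlinarith
    calc 2 * Real.log 2 * (2 * x) = (2 * (2 * x)) * Real.log 2 := by ring
      _ ≤ (4 * x ^ 2 - 2) * Real.log 2 := mul_le_mul_of_nonneg_right h12 hl2.le
  linarith

end Pool.Agent.N26.BM
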