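import Pool.Agent.N26.BM.Est

/-! # The moments of the Bergman measures are bounded -/

set_option autoImplicit false

namespace Pool.Agent.N26.BM

open MeasureTheory Metric Set Filter Topology Polynomial ComplexConjugate

variable {k j : ℕ} {e : Fin (k + 1) → ℂ[X]}

theorem moment_sq (j m : ℕ) (hmj : m < 2 ^ j) :
    ∫ z, z ^ m * ((‖1 - z ^ (2 ^ j)‖ ^ 2 : ℝ) : ℂ) ∂nu = if m = 0 then 2 * (tl j : ℂ) else 0 := by
  have h := moments j m 0 (by omega) (by have := two_pow_ne j; omega)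
  rw [← h]
  congr 1
  funext z
  rw [pow_zero, map_one, mul_one, Complex.mul_conj, Complex.normSq_eq_norm_sq]

theorem integral_sq (j : ℕ) : ∫ z, ‖1 - z ^ (2 ^ j)‖ ^ 2 ∂nu = 2 * tl j := by
  have h := moment_sq j 0 (by positivity)
  simp only [pow_zero, one_mul, if_true] at h
  have h2 : ∫ z, ((‖1 - z ^ (2 ^ j)‖ ^ 2 : ℝ) : ℂ) ∂nu
      = ((∫ z, ‖1 - z ^ (2 ^ j)‖ ^ 2 ∂nu : ℝ) : ℂ) := integral_ofReal
  rw [h2] at h
  exact_mod_cast h

theorem moment_small (he : IsONB nu k e) (h1 : 2 ^ j ≤ k) (h2 : k < 2 ^ (j + 1)) {m : ℕ}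
    (hm : 0 < m) (hmj : m < 2 ^ j) :
    ‖∫ z, z ^ m * ((bergman e z : ℝ) : ℂ) ∂nu‖ ≤ 1 := by
  set M : ℕ := k - 2 ^ j with hM
  set N : ℕ := 2 ^ j with hN
  set S : Set ℂ := (Sj j : Set ℂ) with hS
  have hSm : MeasurableSet S := Finset.measurableSet _
  set B : ℂ → ℝ := bergman e with hB
  set T : ℂ → ℝ := fun z => ((M : ℝ) + 1) / (2 * tl j) * ‖1 - z ^ N‖ ^ 2 with hT
  have hBc : Continuous B := continuous_bergman
  have hTc : Continuous T := by
    rw [hT]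
    fun_prop
  have ht := tl_pos j
  have hw := w_pos j
  have hBi : Integrable B nu := integrable_of_cont nu_ball hBc
  have hTi : Integrable T nu := integrable_of_cont nu_ball hTc
  have hzBc : Continuous (fun z : ℂ => z ^ m * ((B z : ℝ) : ℂ)) :=
    (continuous_id.pow m).mul (Complex.continuous_ofReal.comp hBc)
  have hzTc : Continuous (fun z : ℂ => z ^ m * ((T z : ℝ) : ℂ)) :=
    (continuous_id.pow m).mul (Complex.continuous_ofReal.comp hTc)
  have hzBi := integrable_of_cont nu_ball hzBc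
  have hzTi := integrable_of_cont nu_ball hzTc
  set c : ℝ := 1 - tl j * 2 ^ j / w j with hc
  -- `T` vanishes on `S`
  have hTS : ∀ z ∈ S, T z = 0 := by
    intro z hz
    have : z ^ (2 ^ j) = 1 := mem_Sj.1 (by simpa [hS] using hz)
    simp [hT, hN, this]
  have hTint : ∫ z, T z ∂nu = M + 1 := by
    rw [hT, integral_const_mul, integral_sq]
    field_simp
  have hTzint : ∫ z, z ^ m * ((T z : ℝ) : ℂ) ∂nu = 0 := by
    have e1 : ∀ z : ℂ, z ^ m * ((T z : ℝ) : ℂ)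
        = ((((M : ℝ) + 1) / (2 * tl j) : ℝ) : ℂ) * (z ^ m * ((‖1 - z ^ (2 ^ j)‖ ^ 2 : ℝ) : ℂ)) := by
      intro z
      rw [hT]
      simp only [hN]
      rw [Complex.ofReal_mul]
      ring
    simp only [e1]
    rw [integral_const_mul, moment_sq j m hmj, if_neg hm.ne', mul_zero]
  have hTSint : ∫ z in S, T z ∂nu = 0 := by
    rw [setIntegral_congr_fun hSm (g := fun _ => (0:ℝ)) (fun z hz => hTS z hz)]
    simp
  have hTzSint : ∫ z in S, z ^ m * ((T z : ℝ) : ℂ) ∂nu = 0 := by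
    rw [setIntegral_congr_fun hSm (g := fun _ => (0:ℂ))
      (fun z hz => by simp only [hTS z hz]; simp)]
    simp
  have hTc1 : ∫ z in Sᶜ, T z ∂nu = M + 1 := by
    have := integral_add_compl hSm hTi
    linarith
  have hTc2 : ∫ z in Sᶜ, z ^ m * ((T z : ℝ) : ℂ) ∂nu = 0 := by
    have := integral_add_compl hSm hzTi
    rw [hTzSint, hTzint, zero_add] at this
    exact this
  -- the part on `S`
  have hSB : ∫ z in S, B z ∂nu = ∑ ζ ∈ Sj j, nu.real {ζ} * B ζ := by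
    rw [hS, setIntegral_finset (Sj j) (hBi.integrableOn)]
    simp
  have hSzB : ∫ z in S, z ^ m * ((B z : ℝ) : ℂ) ∂nu
      = ∑ ζ ∈ Sj j, ((nu.real {ζ} * B ζ - c : ℝ) : ℂ) * ζ ^ m := by
    rw [hS, setIntegral_finset (Sj j) (hzBi.integrableOn)]
    have h0 : ∑ ζ ∈ Sj j, ζ ^ m = 0 := sum_Sj_pow hm hmj
    have e2 : ∀ ζ : ℂ, ((nu.real {ζ} * B ζ - c : ℝ) : ℂ) * ζ ^ m
        = nu.real {ζ} • (ζ ^ m * ((B ζ : ℝ) : ℂ)) - (c : ℂ) * ζ ^ m := by
      intro ζ
      rw [Complex.real_smul]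
      push_cast
      ring
    simp only [e2]
    rw [Finset.sum_sub_distrib, ← Finset.mul_sum, h0, mul_zero, sub_zero]
  have hnormS : ‖∫ z in S, z ^ m * ((B z : ℝ) : ℂ) ∂nu‖
      ≤ ∑ ζ ∈ Sj j, (nu.real {ζ} * B ζ - c) := by
    rw [hSzB]
    refine norm_sum_le_of_le _ fun ζ hζ => ?_
    have hζ1 : ζ ^ (2 ^ j) = 1 := mem_Sj.1 hζ
    have hζn : ‖ζ‖ = 1 := by
      have : ‖ζ‖ ^ (2 ^ j) = 1 := by rw [← norm_pow, hζ1, norm_one]
      exact (pow_eq_one_iff_of_nonneg (norm_nonneg _) (two_pow_ne j)).1 this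
    rw [norm_mul, norm_pow, hζn, one_pow, mul_one, Complex.norm_real, Real.norm_eq_abs,
      abs_of_nonneg]
    have := bound_atom he h1 hζ
    linarith
  have hsumS : ∑ ζ ∈ Sj j, (nu.real {ζ} * B ζ - c) = ∫ z in S, B z ∂nu - 2 ^ j * c := by
    rw [Finset.sum_sub_distrib, hSB]
    congr 1
    rw [Finset.sum_const, card_Sj]
    simp
  -- the part off `S`
  have hae : ∀ᵐ z ∂nu, T z ≤ B z := by
    filter_upwards [ae_norm] with z hz
    exact bound_T he h1 h2 hz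
  have hnormC : ‖∫ z in Sᶜ, z ^ m * ((B z : ℝ) : ℂ) ∂nu‖
      ≤ ∫ z in Sᶜ, B z ∂nu - (M + 1) := by
    have e3 : ∫ z in Sᶜ, z ^ m * ((B z : ℝ) : ℂ) ∂nu
        = ∫ z in Sᶜ, (z ^ m * ((B z : ℝ) : ℂ) - z ^ m * ((T z : ℝ) : ℂ)) ∂nu := by
      rw [integral_sub hzBi.integrableOn hzTi.integrableOn, hTc2, sub_zero]
    rw [e3, ← hTc1, ← integral_sub hBi.integrableOn hTi.integrableOn]
    refine (norm_integral_le_integral_norm _).trans ?_
    refine integral_mono_ae ?_ ?_ ?_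
    · exact ((hzBi.sub hzTi).norm).integrableOn
    · exact (hBi.sub hTi).integrableOn
    · refine ae_restrict_of_ae ?_
      filter_upwards [ae_norm, hae] with z hz hle
      have : z ^ m * ((B z : ℝ) : ℂ) - z ^ m * ((T z : ℝ) : ℂ) = z ^ m * ((B z - T z : ℝ) : ℂ) := by
        push_cast
        ring
      rw [this, norm_mul, norm_pow, hz, one_pow, one_mul, Complex.norm_real, Real.norm_eq_abs,
        abs_of_nonneg (by linarith)]
  have htot : ∫ z in S, B z ∂nu + ∫ z in Sᶜ, B z ∂nu = k + 1 := by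
    rw [integral_add_compl hSm hBi]
    exact integral_bergman nu_ball he
  have hsplit : ∫ z, z ^ m * ((B z : ℝ) : ℂ) ∂nu
      = ∫ z in S, z ^ m * ((B z : ℝ) : ℂ) ∂nu + ∫ z in Sᶜ, z ^ m * ((B z : ℝ) : ℂ) ∂nu :=
    (integral_add_compl hSm hzBi).symm
  have hkM : (k : ℝ) = M + 2 ^ j := by
    have : k = M + 2 ^ j := by omega
    exact_mod_cast this
  have herr := err_le j
  calc ‖∫ z, z ^ m * ((B z : ℝ) : ℂ) ∂nu‖
      ≤ ‖∫ z in S, z ^ m * ((B z : ℝ) : ℂ) ∂nu‖ + ‖∫ z in Sᶜ, z ^ m * ((B z : ℝ) : ℂ) ∂nu‖ := by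
        rw [hsplit]
        exact norm_add_le _ _
    _ ≤ (∫ z in S, B z ∂nu - 2 ^ j * c) + (∫ z in Sᶜ, B z ∂nu - (M + 1)) := by
        rw [← hsumS]
        exact add_le_add hnormS hnormC
    _ = tl j * (2 ^ j) ^ 2 / w j := by
        have : (∫ z in S, B z ∂nu - 2 ^ j * c) + (∫ z in Sᶜ, B z ∂nu - (M + 1))
            = (k + 1) - 2 ^ j * c - (M + 1) := by rw [← htot]; ring
        rw [this, hkM, hc]
        ring
    _ ≤ 1 := herr

end Pool.Agent.N26.BM
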