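import Mathlib

/-! # The weights `2^{-4^j}` -/

set_option autoImplicit false

namespace Pool.Agent.N26.BM

open Filter Topology

/-- the weights -/
noncomputable def w (j : ℕ) : ℝ := (1 / 2) ^ (4 ^ j)

theorem w_pos (j : ℕ) : 0 < w j := by unfold w; positivity

theorem add_le_four_pow (j l : ℕ) : 4 ^ j + l ≤ 4 ^ (j + l) := by
  induction l with
  | zero => simp
  | succ l ih =>
    have h1 : 0 < 4 ^ (j + l) := by positivity
    have h2 : 4 ^ (j + (l + 1)) = 4 * 4 ^ (j + l) := by rw [← add_assoc, pow_succ]; ring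
    omega

theorem w_add_le (j l : ℕ) : w (j + l) ≤ w j * (1 / 2) ^ l := by
  unfold w
  rw [← pow_add]
  exact pow_le_pow_of_le_one (by norm_num) (by norm_num) (add_le_four_pow j l)

theorem summable_w : Summable w := by
  have h : ∀ l, w l ≤ w 0 * (1 / 2) ^ l := by
    intro l
    have := w_add_le 0 l
    rwa [zero_add] at this
  exact Summable.of_nonneg_of_le (fun l => (w_pos l).le) h
    ((summable_geometric_of_lt_one (by norm_num) (by norm_num)).mul_left _)

/-- the tail `∑_{i > j} w i` -/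
noncomputable def tl (j : ℕ) : ℝ := ∑' i, if j < i then w i else 0

theorem summable_tl (j : ℕ) : Summable (fun i => if j < i then w i else 0) := by
  refine Summable.of_nonneg_of_le (fun i => ?_) (fun i => ?_) summable_w
  · split_ifs
    · exact (w_pos i).le
    · exact le_rfl
  · split_ifs
    · exact le_rfl
    · exact (w_pos i).le

theorem tl_pos (j : ℕ) : 0 < tl j := by
  unfold tl
  refine (summable_tl j).tsum_pos (fun i => ?_) (j + 1) ?_
  · split_ifs
    · exact (w_pos i).le
    · exact le_rfl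
  · simp [w_pos]

theorem tl_le (j : ℕ) : tl j ≤ 2 * w (j + 1) := by
  have h0 : tl j = ∑' l, w (j + 1 + l) := by
    unfold tl
    rw [← (summable_tl j).sum_add_tsum_nat_add (j + 1)]
    have : ∑ i ∈ Finset.range (j + 1), (if j < i then w i else 0) = 0 := by
      apply Finset.sum_eq_zero
      intro i hi
      rw [Finset.mem_range] at hi
      rw [if_neg (by omega)]
    rw [this, zero_add]
    apply tsum_congr
    intro l
    rw [if_pos (by omega), add_comm l]
  rw [h0]
  have hg : Summable (fun l : ℕ => w (j + 1) * (1 / 2 : ℝ) ^ l) :=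
    (summable_geometric_of_lt_one (by norm_num) (by norm_num)).mul_left _
  have h1 : ∑' l, w (j + 1 + l) ≤ ∑' l : ℕ, w (j + 1) * (1 / 2 : ℝ) ^ l := by
    refine Summable.tsum_le_tsum (fun l => w_add_le (j + 1) l) ?_ hg
    exact Summable.of_nonneg_of_le (fun l => (w_pos _).le) (fun l => w_add_le (j + 1) l) hg
  refine h1.trans (le_of_eq ?_)
  rw [tsum_mul_left, tsum_geometric_of_lt_one (by norm_num) (by norm_num)]
  norm_num
  ring

theorem w_succ (j : ℕ) : w (j + 1) = w j ^ 4 := by
  unfold w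
  rw [← pow_mul, pow_succ]

theorem two_mul_add_one_le (j : ℕ) : 2 * j + 1 ≤ 3 * 4 ^ j := by
  induction j with
  | zero => norm_num
  | succ j ih =>
    rw [pow_succ]
    have : 0 < 4 ^ j := by positivity
    omega

/-- the error term is at most one -/
theorem err_le (j : ℕ) : tl j * (2 ^ j) ^ 2 / w j ≤ 1 := by
  rw [div_le_one (w_pos j)]
  have h1 := tl_le j
  have h2 : w (j + 1) = w j * (1 / 2) ^ (3 * 4 ^ j) := by
    unfold w
    rw [← pow_add]
    congr 1
    rw [pow_succ]
    ring
  have h3 : (1 / 2 : ℝ) ^ (3 * 4 ^ j) ≤ (1 / 2) ^ (2 * j + 1) :=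
    pow_le_pow_of_le_one (by norm_num) (by norm_num) (two_mul_add_one_le j)
  have h4 : (1 / 2 : ℝ) ^ (2 * j + 1) * (2 * (2 ^ j) ^ 2) = 1 := by
    have : (2 * (2 ^ j) ^ 2 : ℝ) = 2 ^ (2 * j + 1) := by
      rw [← pow_mul, pow_succ]
      ring
    rw [this, ← mul_pow]
    norm_num
  have hw := w_pos j
  calc tl j * (2 ^ j) ^ 2 ≤ (2 * w (j + 1)) * (2 ^ j) ^ 2 :=
        mul_le_mul_of_nonneg_right h1 (by positivity)
    _ = w j * ((1 / 2) ^ (3 * 4 ^ j) * (2 * (2 ^ j) ^ 2)) := by rw [h2]; ring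
    _ ≤ w j * ((1 / 2) ^ (2 * j + 1) * (2 * (2 ^ j) ^ 2)) := by gcongr
    _ = w j := by rw [h4, mul_one]

end Pool.Agent.N26.BM
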