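import Pool.Agent.N26.BM.Ext
import Pool.Agent.N26.BM.Wt

/-! # The measure: sparse combination of uniform measures on roots of unity -/

set_option autoImplicit false

namespace Pool.Agent.N26.BM

open MeasureTheory Metric Set Filter Topology Polynomial ComplexConjugate
open scoped ENNReal

/-- a primitive `n`-th root of unity -/
noncomputable def zt (n : ℕ) : ℂ := Complex.exp (2 * Real.pi * Complex.I / n)

theorem zt_prim {n : ℕ} (hn : n ≠ 0) : IsPrimitiveRoot (zt n) n := Complex.isPrimitiveRoot_exp n hn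

theorem zt_norm {n : ℕ} (hn : n ≠ 0) : ‖zt n‖ = 1 := (zt_prim hn).norm'_eq_one hn

theorem zt_pow_norm {n : ℕ} (hn : n ≠ 0) (a : ℕ) : ‖zt n ^ a‖ = 1 := by
  rw [norm_pow, zt_norm hn, one_pow]

/-- `w j` times the uniform probability measure on the `2^j`-th roots of unity -/
noncomputable def mj (j : ℕ) : Measure ℂ :=
  ENNReal.ofReal (w j / 2 ^ j) • ∑ a ∈ Finset.range (2 ^ j), Measure.dirac (zt (2 ^ j) ^ a)

/-- the measure -/
noncomputable def nu : Measure ℂ := Measure.sum mj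

theorem mj_apply (j : ℕ) (s : Set ℂ) (hs : MeasurableSet s) :
    mj j s = ENNReal.ofReal (w j / 2 ^ j) *
      ∑ a ∈ Finset.range (2 ^ j), s.indicator 1 (zt (2 ^ j) ^ a) := by
  unfold mj
  rw [Measure.smul_apply, Measure.finset_sum_apply, smul_eq_mul]
  congr 1
  exact Finset.sum_congr rfl fun a _ => Measure.dirac_apply' _ hs

theorem mj_le (j : ℕ) (s : Set ℂ) (hs : MeasurableSet s) : mj j s ≤ ENNReal.ofReal (w j) := by
  rw [mj_apply j s hs]
  have h1 : ∑ a ∈ Finset.range (2 ^ j), s.indicator (1 : ℂ → ℝ≥0∞) (zt (2 ^ j) ^ a)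
      ≤ (2 ^ j : ℕ) := by
    calc _ ≤ ∑ a ∈ Finset.range (2 ^ j), (1 : ℝ≥0∞) := by
          apply Finset.sum_le_sum
          intro a _
          exact Set.indicator_le_self' (by simp) _
      _ = _ := by simp
  have h2 : ENNReal.ofReal (w j) = ENNReal.ofReal (w j / 2 ^ j) * ((2 ^ j : ℕ) : ℝ≥0∞) := by
    rw [← ENNReal.ofReal_natCast, ← ENNReal.ofReal_mul (by have := w_pos j; positivity)]
    congr 1
    push_cast
    field_simp
  rw [h2]
  gcongr

instance : IsFiniteMeasure nu := by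
  constructor
  unfold nu
  rw [Measure.sum_apply _ MeasurableSet.univ]
  calc ∑' j, mj j univ ≤ ∑' j, ENNReal.ofReal (w j) :=
        ENNReal.tsum_le_tsum fun j => mj_le j univ MeasurableSet.univ
    _ = ENNReal.ofReal (∑' j, w j) :=
        (ENNReal.ofReal_tsum_of_nonneg (fun j => (w_pos j).le) summable_w).symm
    _ < ⊤ := ENNReal.ofReal_lt_top

theorem mj_null {j : ℕ} {s : Set ℂ} (hs : MeasurableSet s)
    (h : ∀ a < 2 ^ j, zt (2 ^ j) ^ a ∉ s) : mj j s = 0 := by
  rw [mj_apply j s hs]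
  rw [Finset.sum_eq_zero, mul_zero]
  intro a ha
  exact Set.indicator_of_notMem (h a (Finset.mem_range.1 ha)) _

theorem nu_sphere : nu (sphere 0 1)ᶜ = 0 := by
  have hm : MeasurableSet (sphere (0:ℂ) 1)ᶜ := isClosed_sphere.measurableSet.compl
  unfold nu
  rw [Measure.sum_apply _ hm, ENNReal.tsum_eq_zero]
  intro j
  apply mj_null hm
  intro a _ h
  apply h
  simp [zt_norm]

theorem nu_ball : nu (closedBall 0 1)ᶜ = 0 := by
  refine measure_mono_null ?_ nu_sphere
  exact compl_subset_compl.2 sphere_subset_closedBall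

theorem ae_norm : ∀ᵐ z ∂nu, ‖z‖ = 1 := by
  rw [ae_iff]
  refine measure_mono_null ?_ nu_sphere
  intro z hz
  simpa using hz

/-- the `2^j`-th roots of unity -/
noncomputable def Sj (j : ℕ) : Finset ℂ := (Finset.range (2 ^ j)).image (fun a => zt (2 ^ j) ^ a)

theorem two_pow_ne (j : ℕ) : (2 ^ j : ℕ) ≠ 0 := by positivity

theorem mem_Sj {j : ℕ} {z : ℂ} : z ∈ Sj j ↔ z ^ (2 ^ j) = 1 := by
  unfold Sj
  rw [Finset.mem_image]
  constructor
  · rintro ⟨a, _, rfl⟩
    rw [← pow_mul, mul_comm, pow_mul, (zt_prim (two_pow_ne j)).pow_eq_one, one_pow]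
  · intro h
    obtain ⟨a, ha, rfl⟩ := (zt_prim (two_pow_ne j)).eq_pow_of_pow_eq_one h
    exact ⟨a, Finset.mem_range.2 ha, rfl⟩

theorem card_Sj (j : ℕ) : (Sj j).card = 2 ^ j := by
  unfold Sj
  rw [Finset.card_image_of_injOn, Finset.card_range]
  intro a ha b hb h
  simp only [Finset.coe_range, mem_Iio] at ha hb
  exact (zt_prim (two_pow_ne j)).pow_inj ha hb h

theorem sum_Sj_pow {j m : ℕ} (hm : 0 < m) (hmj : m < 2 ^ j) : ∑ z ∈ Sj j, z ^ m = 0 := by
  unfold Sj
  rw [Finset.sum_image]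
  · have h1 : zt (2 ^ j) ^ m ≠ 1 := (zt_prim (two_pow_ne j)).pow_ne_one_of_pos_of_lt hm.ne' hmj
    have h2 : ∀ a, (zt (2 ^ j) ^ a) ^ m = (zt (2 ^ j) ^ m) ^ a := by
      intro a
      rw [← pow_mul, ← pow_mul, mul_comm]
    simp only [h2]
    have h3 := mul_geom_sum (zt (2 ^ j) ^ m) (2 ^ j)
    rw [← pow_mul, mul_comm m, pow_mul, (zt_prim (two_pow_ne j)).pow_eq_one, one_pow, sub_self] at h3
    rcases mul_eq_zero.1 h3 with h4 | h4
    · exact absurd (sub_eq_zero.1 h4) h1
    · exact h4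
  · intro a ha b hb h
    simp only [Finset.coe_range, mem_Iio] at ha hb
    exact (zt_prim (two_pow_ne j)).pow_inj ha hb h

/-- lower bound for the atoms -/
theorem atom_ge {j : ℕ} {z : ℂ} (hz : z ∈ Sj j) : w j / 2 ^ j ≤ nu.real {z} := by
  have h1 : ENNReal.ofReal (w j / 2 ^ j) ≤ nu {z} := by
    have h2 : mj j {z} ≤ nu {z} := by
      unfold nu
      exact Measure.le_sum_apply _ _ |> fun h => (ENNReal.le_tsum j).trans h
    refine le_trans ?_ h2
    rw [mj_apply j _ (measurableSet_singleton z)]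
    unfold Sj at hz
    obtain ⟨a, ha, rfl⟩ := Finset.mem_image.1 hz
    have h3 : (1 : ℝ≥0∞) ≤ ∑ b ∈ Finset.range (2 ^ j),
        ({zt (2 ^ j) ^ a} : Set ℂ).indicator (1 : ℂ → ℝ≥0∞) (zt (2 ^ j) ^ b) := by
      refine le_trans ?_ (Finset.single_le_sum (f := fun b =>
        ({zt (2 ^ j) ^ a} : Set ℂ).indicator (1 : ℂ → ℝ≥0∞) (zt (2 ^ j) ^ b))
        (fun _ _ => bot_le) ha)
      simp
    calc ENNReal.ofReal (w j / 2 ^ j) = ENNReal.ofReal (w j / 2 ^ j) * 1 := (mul_one _).symm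
      _ ≤ _ := by gcongr
  have := ENNReal.toReal_mono (measure_ne_top nu {z}) h1
  rwa [ENNReal.toReal_ofReal (by have := w_pos j; positivity)] at this

/-- the measure off the `2^j`-th roots of unity -/
theorem nu_compl_le (j : ℕ) : nu.real ((Sj j : Set ℂ))ᶜ ≤ tl j := by
  have hm : MeasurableSet ((Sj j : Set ℂ))ᶜ := (Finset.measurableSet _).compl
  have h1 : nu ((Sj j : Set ℂ))ᶜ ≤ ENNReal.ofReal (tl j) := by
    unfold nu tl
    rw [Measure.sum_apply _ hm, ENNReal.ofReal_tsum_of_nonneg _ (summable_tl j)]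
    · apply ENNReal.tsum_le_tsum
      intro i
      split_ifs with h
      · exact mj_le i _ hm
      · rw [mj_null hm]
        · exact bot_le
        · intro a _ hmem
          apply hmem
          rw [Finset.mem_coe, mem_Sj]
          obtain ⟨c, hc⟩ : (2 ^ i : ℕ) ∣ 2 ^ j := Nat.pow_dvd_pow 2 (by omega)
          rw [hc, ← pow_mul, mul_comm a, mul_assoc, pow_mul, (zt_prim (two_pow_ne i)).pow_eq_one,
            one_pow]
    · intro i
      split_ifs
      · exact (w_pos i).le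
      · exact le_rfl
  have := ENNReal.toReal_mono ENNReal.ofReal_ne_top h1
  rwa [ENNReal.toReal_ofReal (tl_pos j).le] at this

/-- the average over the `n`-th roots of unity of a monomial -/
theorem sum_monomial {n : ℕ} (hn : n ≠ 0) (a b : ℕ) :
    ∑ c ∈ Finset.range n, (zt n ^ c) ^ a * conj ((zt n ^ c) ^ b) =
      if (n : ℤ) ∣ (a : ℤ) - b then (n : ℂ) else 0 := by
  have hz : zt n ≠ 0 := by
    intro h
    have := zt_norm hn
    rw [h, norm_zero] at this
    norm_num at this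
  have hconj : conj (zt n) = (zt n)⁻¹ := by
    rw [Complex.inv_def, Complex.normSq_eq_norm_sq, zt_norm hn]
    simp
  have h1 : ∀ c : ℕ, (zt n ^ c) ^ a * conj ((zt n ^ c) ^ b) = (zt n ^ ((a : ℤ) - b)) ^ c := by
    intro c
    rw [map_pow, map_pow, hconj, zpow_sub₀ hz, zpow_natCast, zpow_natCast, div_pow, ← pow_mul,
      ← pow_mul, ← pow_mul, ← pow_mul, inv_pow, mul_comm c a, mul_comm c b, div_eq_mul_inv]
  simp only [h1]
  split_ifs with h
  · rw [((zt_prim hn).zpow_eq_one_iff_dvd _).2 h]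
    simp
  · have h2 : zt n ^ ((a : ℤ) - b) ≠ 1 := fun h' => h (((zt_prim hn).zpow_eq_one_iff_dvd _).1 h')
    have h3 := mul_geom_sum (zt n ^ ((a : ℤ) - b)) n
    have hp : (zt n ^ ((a : ℤ) - b)) ^ n = 1 := by
      rw [← zpow_natCast, ← zpow_mul, mul_comm, zpow_mul, zpow_natCast, (zt_prim hn).pow_eq_one,
        one_zpow]
    rw [hp, sub_self] at h3
    rcases mul_eq_zero.1 h3 with h4 | h4
    · exact absurd (sub_eq_zero.1 h4) h2
    · exact h4

theorem integral_mj {g : ℂ → ℂ} (hg : Continuous g) (j : ℕ) :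
    ∫ z, g z ∂(mj j) = (w j / 2 ^ j : ℝ) * ∑ a ∈ Finset.range (2 ^ j), g (zt (2 ^ j) ^ a) := by
  unfold mj
  rw [integral_smul_measure, integral_finsetSum_measure]
  · rw [ENNReal.toReal_ofReal (by have := w_pos j; positivity)]
    simp [integral_dirac]
  · intro i _
    exact (integrable_dirac (by simp))

theorem hasSum_nu {g : ℂ → ℂ} (hg : Continuous g) :
    HasSum (fun j => ((w j / 2 ^ j : ℝ) : ℂ) * ∑ a ∈ Finset.range (2 ^ j), g (zt (2 ^ j) ^ a))
      (∫ z, g z ∂nu) := by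
  have hi : Integrable g nu := integrable_of_cont nu_ball hg
  have h := hasSum_integral_measure (μ := mj) (f := g) hi
  have h2 : (fun j => ∫ z, g z ∂(mj j)) =
      (fun j => ((w j / 2 ^ j : ℝ) : ℂ) * ∑ a ∈ Finset.range (2 ^ j), g (zt (2 ^ j) ^ a)) :=
    funext fun j => integral_mj hg j
  rw [h2] at h
  exact h

/-- the key computation: moments against `|1 - z^N|²`, `N = 2^j` -/
theorem moments (j a b : ℕ) (h1 : a < b + 2 ^ j) (h2 : b < a + 2 ^ j) :
    ∫ z, z ^ a * conj (z ^ b) * ((1 - z ^ (2 ^ j)) * conj (1 - z ^ (2 ^ j))) ∂nu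
      = if a = b then 2 * (tl j : ℂ) else 0 := by
  have hcont : Continuous (fun z : ℂ =>
      z ^ a * conj (z ^ b) * ((1 - z ^ (2 ^ j)) * conj (1 - z ^ (2 ^ j)))) := by
    have := Complex.continuous_conj
    fun_prop
  have hs := hasSum_nu hcont
  have hterm : ∀ i, ((w i / 2 ^ i : ℝ) : ℂ) * ∑ c ∈ Finset.range (2 ^ i),
      ((zt (2 ^ i) ^ c) ^ a * conj ((zt (2 ^ i) ^ c) ^ b) *
        ((1 - (zt (2 ^ i) ^ c) ^ (2 ^ j)) * conj (1 - (zt (2 ^ i) ^ c) ^ (2 ^ j))))
      = ((if j < i then w i else 0 : ℝ) : ℂ) * (if a = b then 2 else 0) := by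
    intro i
    by_cases hij : j < i
    · rw [if_pos hij]
      have hn := two_pow_ne i
      have hN : (2 : ℤ) ^ j * 2 ≤ 2 ^ i := by
        rw [← pow_succ]
        exact pow_le_pow_right₀ (by norm_num) hij
      have e1 : ∀ c, (zt (2 ^ i) ^ c) ^ a * conj ((zt (2 ^ i) ^ c) ^ b) *
        ((1 - (zt (2 ^ i) ^ c) ^ (2 ^ j)) * conj (1 - (zt (2 ^ i) ^ c) ^ (2 ^ j))) =
        (zt (2 ^ i) ^ c) ^ a * conj ((zt (2 ^ i) ^ c) ^ b)
        - (zt (2 ^ i) ^ c) ^ (a + 2 ^ j) * conj ((zt (2 ^ i) ^ c) ^ b)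
        - (zt (2 ^ i) ^ c) ^ a * conj ((zt (2 ^ i) ^ c) ^ (b + 2 ^ j))
        + (zt (2 ^ i) ^ c) ^ (a + 2 ^ j) * conj ((zt (2 ^ i) ^ c) ^ (b + 2 ^ j)) := by
        intro c
        simp only [map_sub, map_one, map_pow, pow_add, map_mul]
        ring
      simp only [e1]
      rw [Finset.sum_add_distrib, Finset.sum_sub_distrib, Finset.sum_sub_distrib,
        sum_monomial hn, sum_monomial hn, sum_monomial hn, sum_monomial hn]
      push_cast
      have hpos : (0:ℤ) < 2 ^ j := by positivity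
      have h1' : (a : ℤ) < b + 2 ^ j := by exact_mod_cast h1
      have h2' : (b : ℤ) < a + 2 ^ j := by exact_mod_cast h2
      have d0 : ((2:ℤ) ^ i ∣ (a:ℤ) - b) ↔ a = b := by
        constructor
        · intro h
          have := Int.eq_zero_of_abs_lt_dvd h (by rw [abs_lt]; constructor <;> linarith)
          omega
        · rintro rfl
          simp
      have d1 : ¬ ((2:ℤ) ^ i ∣ (a:ℤ) + 2 ^ j - b) := by
        intro h
        have := Int.eq_zero_of_abs_lt_dvd h (by rw [abs_lt]; constructor <;> linarith)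
        linarith
      have d2 : ¬ ((2:ℤ) ^ i ∣ (a:ℤ) - (b + 2 ^ j)) := by
        intro h
        have := Int.eq_zero_of_abs_lt_dvd h (by rw [abs_lt]; constructor <;> linarith)
        linarith
      have d3 : ((2:ℤ) ^ i ∣ (a:ℤ) + 2 ^ j - (b + 2 ^ j)) ↔ a = b := by
        rw [← d0]
        have : (a:ℤ) + 2 ^ j - (b + 2 ^ j) = a - b := by ring
        rw [this]
      simp only [d0, d1, d2, d3]
      have h2i : ((2:ℂ) ^ i) ≠ 0 := pow_ne_zero _ two_ne_zero
      by_cases hab : a = b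
      · simp only [hab, if_true, if_false]
        field_simp
        ring
      · simp [hab]
    · rw [if_neg hij]
      have e2 : ∀ c, (zt (2 ^ i) ^ c) ^ (2 ^ j) = 1 := by
        intro c
        obtain ⟨d, hd⟩ : (2 ^ i : ℕ) ∣ 2 ^ j := Nat.pow_dvd_pow 2 (by omega)
        rw [hd, ← pow_mul, mul_comm c, mul_assoc, pow_mul, (zt_prim (two_pow_ne i)).pow_eq_one,
            one_pow]
      simp [e2]
  simp only [hterm] at hs
  have hs2 : HasSum (fun i => ((if j < i then w i else 0 : ℝ) : ℂ) * (if a = b then 2 else 0))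
      ((tl j : ℂ) * (if a = b then 2 else 0)) := by
    apply HasSum.mul_right
    exact Complex.hasSum_ofReal.2 (summable_tl j).hasSum
  rw [hs.unique hs2]
  split_ifs <;> ring

/-- `ν` is a norm on the polynomials -/
theorem nu_pos (p : ℂ[X]) (hp : p ≠ 0) : 0 < ∫ z, ‖p.eval z‖ ^ 2 ∂nu := by
  have hc : Continuous (fun z : ℂ => ‖p.eval z‖ ^ 2) := (p.continuous.norm).pow 2
  have hi : Integrable (fun z : ℂ => ‖p.eval z‖ ^ 2) nu := integrable_of_cont nu_ball hc
  have h0 : 0 ≤ ∫ z, ‖p.eval z‖ ^ 2 ∂nu := integral_nonneg fun z => by positivity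
  rcases h0.lt_or_eq with h | h
  · exact h
  · exfalso
    have h1 := (integral_eq_zero_iff_of_nonneg (fun z => by positivity) hi).1 h.symm
    set j := p.natDegree with hj
    have hlt : p.natDegree < 2 ^ j := Nat.lt_two_pow_self
    have hroot : ∀ z ∈ Sj j, p.eval z = 0 := by
      intro z hz
      by_contra hne
      have h2 : nu {z} = 0 := by
        refine measure_mono_null ?_ (ae_iff.1 h1)
        intro x hx
        rw [mem_singleton_iff] at hx
        subst hx
        simpa using hne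
      have h3 := atom_ge hz
      rw [Measure.real, h2, ENNReal.toReal_zero] at h3
      have : 0 < w j / 2 ^ j := div_pos (w_pos j) (by positivity)
      linarith
    have hsub : Sj j ⊆ p.roots.toFinset := by
      intro z hz
      rw [Multiset.mem_toFinset, mem_roots hp]
      exact hroot z hz
    have h4 := Finset.card_le_card hsub
    rw [card_Sj] at h4
    have h5 := (Multiset.toFinset_card_le p.roots).trans p.card_roots'
    omega

end Pool.Agent.N26.BM
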